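import Pool.Agent.X139.SzDef

set_option autoImplicit false

open Pool.Agent.X139.Sz

namespace Pool.Agent.Results.MP_dd6dde_co.ManyZeros

/-- **The uniqueness conjecture fails**: some connected non-complete finite graph has two distinct
exponents at which the variable Szeged index equals the variable Wiener index. -/
theorem result :
    ∃ (V : Type) (_ : Fintype V) (G : SimpleGraph V), G.Connected ∧ G ≠ ⊤ ∧
      ∃ α β : ℝ, 0 < α ∧ α < 1 / 4 ∧ 1 / 4 < β ∧ β < 1 / 2 ∧
        szeged G α = wiener G α ∧ szeged G β = wiener G β := by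
  have i0 : Fin BB := ⟨0, by unfold BB; norm_num⟩
  refine ⟨Vt BB LL, inferInstance, Gr BB LL, ?_, ?_, ?_⟩
  · have : Nonempty (Vt BB LL) := ⟨Sum.inl (i0, true)⟩
    exact SimpleGraph.Connected.mk (fun x y => (dist_Gr BB2 x y).1)
  · intro h
    have h1 : (Gr BB LL).Adj (Sum.inl (i0, true)) (Sum.inl (i0, false)) := by
      rw [h, SimpleGraph.top_adj]
      simp
    rw [adj_iff] at h1
    simp [df] at h1
  · have hc := hh_cont
    obtain ⟨α, hα, hα0⟩ : ∃ α ∈ Set.Ioo (0 : ℝ) (1 / 4), hh α = 0 :=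
      intermediate_value_Ioo (by norm_num) hc.continuousOn ⟨hh_zero, hh_quarter⟩
    obtain ⟨β, hβ, hβ0⟩ : ∃ β ∈ Set.Ioo (1 / 4 : ℝ) (1 / 2), hh β = 0 :=
      intermediate_value_Ioo' (by norm_num) hc.continuousOn ⟨hh_half, hh_quarter⟩
    exact ⟨α, β, hα.1, hα.2, hβ.1, hβ.2, sub_eq_zero.1 hα0, sub_eq_zero.1 hβ0⟩

end Pool.Agent.Results.MP_dd6dde_co.ManyZeros
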